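import Pool.Agent.K7.H48.Fan

/-!
# Every forcing preserves winning strategies in the strong fan tightness game on `C_p(X)`

The proof works for an arbitrary topological space in place of `C_p(X)`, see
`Pool.Agent.K7.H48.Fan`.
-/

set_option autoImplicit false

namespace Pool.Agent.Results.MP_abf503_lc.CpPreserved

open Pool.Agent.Helper669.Forcing Pool.Agent.K7.H48.Fan

universe u v

/-- The topology of pointwise convergence on the set of the continuous maps from `X` to `ℝ`. -/
@[reducible] def pointwise (X : Type v) [TopologicalSpace X] : TopologicalSpace C(X, ℝ) :=
  TopologicalSpace.induced (fun f x => f x) (inferInstance : TopologicalSpace (X → ℝ))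

/-- For every forcing notion `P` and every topological space `X`: if II has a winning strategy in
the strong countable fan tightness game at all points of `C_p(X)`, then all conditions of `P`
force that II has one at all points of the ground model `C_p(X)`, with the topology generated by
its ground model topology as a base. -/
theorem result (P : Type u) [Preorder P] (X : Type v) [TopologicalSpace X] :
    letI := pointwise X
    (∀ y : C(X, ℝ), IIWins y) → ∀ p : P, p ∈ fall fun y : C(X, ℝ) => fIIWins P y := by
  intro h p y
  exact @preserved P _ C(X, ℝ) (pointwise X) y (h y) p

end Pool.Agent.Results.MP_abf503_lc.CpPreserved
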